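import Pool.Agent.Lib.MP_3e612f_nt.DI.U.Br
import Pool.Agent.Lib.MP_3e612f_nt.DI.U.Words
import Pool.Agent.Lib.MP_3e612f_nt.PI.OneM

/-!
The induction: `PO q 1`; `PO q (d - 1)` gives `OR q d 1`; `OR q d M` for all `M` gives `PO q d`. The key
step `PO q (d - 1) → OR q d m1 → OR q d (l * m1)` (`l` prime) is a hypothesis here.
-/

set_option autoImplicit false

namespace Pool.Agent.Lib.MP_3e612f_nt.DI

open Finset
open Pool.Agent.Lib.MP_3e612f_nt.PI (wd ee mc loc OneM_clog one_main)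

/-- the main theorem for one character from `PO` -/
theorem degMain_of_PO {q D d : ℕ} (hq : 2 ≤ q) (h : PO q d) : DegMain q D d := by
  intro κ m _ hm ε hε
  obtain ⟨N0, h0⟩ := h D κ m hm ε hε
  exact ⟨N0, fun N hN L s F => h0 N hN s _ ⟨L + D, U.isPL_iff.2 (U.isP_phd hq D d L F)⟩⟩

/-- `OR q d M` for all moduli gives `PO q d` -/
theorem PO_of_OR {q d : ℕ} (hq : 2 ≤ q) (hd : 1 ≤ d)
    (h : ∀ M κ : ℕ, 1 ≤ M → M ∣ q ^ κ → OR q d M) : PO q d := by
  intro D κ M _ hM ε hε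
  have hM1 : 1 ≤ M := Nat.one_le_iff_ne_zero.2 (NeZero.ne M)
  obtain ⟨N0, h0⟩ := h M κ hM1 hM D κ M (D + 1) hM dvd_rfl ε hε
  refine ⟨max N0 1, fun N hN s f hf => ?_⟩
  have hN1 : N0 ≤ N := le_trans (le_max_left _ _) hN
  have hN2 : 1 ≤ N := le_trans (le_max_right _ _) hN
  obtain ⟨h1, h2⟩ := OneM_clog hq hN2
  obtain ⟨L, hL⟩ := U.isP_iff.1 hf
  obtain ⟨f', s', _, hf', h3⟩ := U.trunc_isP hq D d (Nat.clog q N) N h1 L s f hL
  obtain ⟨t, g, ht, hg, h4⟩ := hf'.split hd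
  have h5 := h0 N hN1 (Nat.clog q N) (Nat.clog q N + 1 + D) s' h1 h2 (by omega)
    (fun S => t (S.map (U.emp q D _))) g
    (fun S => by rw [nsmul_eq_mul, ZMod.natCast_self, zero_mul])
    (fun S hS => ht _ (by rwa [card_map])) ⟨_, U.isPL_iff.2 hg⟩
  have h6 : ∑ n ∈ Icc 1 N, mc n * ee (f (n + s)) =
      ∑ n ∈ Icc 1 N, mc n * ee (FP q D (Nat.clog q N + 1 + D)
        (fun S => t (S.map (U.emp q D _))) (n + s') + g (n + s')) := by
    refine Finset.sum_congr rfl fun n hn => ?_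
    rw [h3 n (mem_Icc.1 hn).2, h4, ← U.FP_br]
  rw [h6]
  exact h5

/-- `PO q (d - 1)` gives `OR q d 1` -/
theorem OR_one {q d : ℕ} (h : PO q (d - 1)) : OR q d 1 := by
  intro D κ M w0 _ hM _ ε hε
  obtain ⟨N0, h0⟩ := h D κ M hM ε hε
  refine ⟨N0, fun N hN K1 L s _ _ _ t g hmt _ hg => ?_⟩
  have h1 : ∀ n, FP q D L t n = 0 := by
    intro n
    unfold FP
    refine Finset.sum_eq_zero fun S _ => ?_
    have h2 := hmt S
    rwa [one_nsmul] at h2
  simp only [h1, zero_add]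
  exact h0 N hN s g hg

/-- phases without interactions -/
theorem PO_one {q : ℕ} (hq : 2 ≤ q) : PO q 1 := by
  intro D κ M _ _ ε hε
  obtain ⟨N0, h0⟩ := one_main q D M hq hε
  refine ⟨N0, fun N hN s f hf => ?_⟩
  obtain ⟨L, hL⟩ := U.isP_iff.1 hf
  obtain ⟨F, hF⟩ := (hL.mono_L (Nat.le_succ L)).to_phd hq (Nat.succ_pos L)
  have h1 : f = loc q D (L + 1) fun i w => F (fun _ => i) (fun _ => w) := by
    rw [hF]
    funext n
    unfold phd loc
    symm
    refine Finset.sum_bij (fun i _ => fun _ => i) ?_ ?_ ?_ ?_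
    · intro i hi
      exact Fintype.mem_piFinset.2 fun _ => hi
    · intro i _ i' _ h
      exact congrFun h 0
    · intro j hj
      refine ⟨j 0, Fintype.mem_piFinset.1 hj 0, ?_⟩
      funext a
      rw [Subsingleton.elim a 0]
    · intro i _
      rfl
  rw [h1]
  exact h0 N hN (L + 1) s _

/-- the induction, with the key step as a hypothesis -/
theorem PO_all {q : ℕ} (hq : 2 ≤ q)
    (key : ∀ d l m1 : ℕ, 2 ≤ d → l.Prime → l ∣ q → 1 ≤ m1 → (∃ κ, l * m1 ∣ q ^ κ) →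
      PO q (d - 1) → OR q d m1 → OR q d (l * m1)) :
    ∀ d : ℕ, 1 ≤ d → PO q d := by
  intro d hd
  induction d, hd using Nat.le_induction with
  | base => exact PO_one hq
  | succ d hd ih =>
    refine PO_of_OR hq (by omega) fun M κ hM1 hM => ?_
    induction M using Nat.strong_induction_on with
    | _ M ihM =>
      rcases Nat.lt_or_ge 1 M with h | h
      · have hl : (Nat.minFac M).Prime := Nat.minFac_prime (by omega)
        obtain ⟨m1, hm1⟩ := Nat.minFac_dvd M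
        have h1 : 1 ≤ m1 := by
          rcases Nat.eq_zero_or_pos m1 with h0 | h0
          · rw [h0, mul_zero] at hm1
            omega
          · exact h0
        have h2 : m1 < M := by
          have h3 := hl.two_le
          have h4 : 2 * m1 ≤ Nat.minFac M * m1 := Nat.mul_le_mul_right m1 h3
          omega
        have h5 : m1 ∣ q ^ κ := (Dvd.intro_left _ hm1.symm).trans hM
        have h6 : Nat.minFac M ∣ q := hl.dvd_of_dvd_pow ((Nat.minFac_dvd M).trans hM)
        have h7 := key (d + 1) (Nat.minFac M) m1 (by omega) hl h6 h1 ⟨κ, hm1 ▸ hM⟩ ih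
          (ihM m1 h2 h1 h5)
        rw [← hm1] at h7
        exact h7
      · have h1 : M = 1 := by omega
        subst h1
        exact OR_one ih

theorem degMain_all {q : ℕ} (hq : 2 ≤ q)
    (key : ∀ d l m1 : ℕ, 2 ≤ d → l.Prime → l ∣ q → 1 ≤ m1 → (∃ κ, l * m1 ∣ q ^ κ) →
      PO q (d - 1) → OR q d m1 → OR q d (l * m1)) (D d : ℕ) (hd : 1 ≤ d) : DegMain q D d :=
  degMain_of_PO hq (PO_all hq key d hd)

end Pool.Agent.Lib.MP_3e612f_nt.DI
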