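import Pool.Agent.Lib.MP_3e612f_nt.DI.U.Feat2
import Pool.Agent.Lib.MP_3e612f_nt.DI.GDefs

/-!
The two forms of feature phases: sets of pairs of natural numbers (`DI.U`) and sets of elements of
`Fin L × Fin (q ^ (D + 1))` (`DI`).
-/

set_option autoImplicit false

namespace Pool.Agent.Lib.MP_3e612f_nt.DI.U

open Finset
open Pool.Agent.Lib.MP_3e612f_nt.PI (wd ee mc Str_wd)

/-- the embedding of the points -/
def emp (q D L : ℕ) : Pt q D L ↪ ℕ × ℕ where
  toFun x := (x.1, x.2)
  inj' x y h := by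
    have h1 := congrArg Prod.fst h
    have h2 := congrArg Prod.snd h
    exact Prod.ext (Fin.ext h1) (Fin.ext h2)

theorem ftr_map (q D L n : ℕ) : (DI.ftr q D L n).map (emp q D L) = ftr q D L n := by
  ext x
  unfold DI.ftr ftr
  rw [mem_map, mem_filter, mem_product, mem_range, mem_range]
  constructor
  · rintro ⟨y, hy, rfl⟩
    rw [mem_filter] at hy
    exact ⟨⟨y.1.2, y.2.2⟩, hy.2.1, hy.2.2⟩
  · rintro ⟨⟨h1, h2⟩, h3, h4⟩
    refine ⟨(⟨x.1, h1⟩, ⟨x.2, h2⟩), ?_, rfl⟩
    rw [mem_filter]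
    exact ⟨mem_univ _, h3, h4⟩

section
variable {G : Type} [AddCommGroup G]

theorem FP_br (q D L : ℕ) (t : Finset (ℕ × ℕ) → G) (n : ℕ) :
    FP q D L t n = DI.FP q D L (fun S => t (S.map (emp q D L))) n := by
  unfold FP DI.FP
  rw [← ftr_map]
  symm
  refine Finset.sum_bij (fun S _ => S.map (emp q D L)) ?_ ?_ ?_ ?_
  · intro S hS
    rw [mem_powerset] at hS ⊢
    exact Finset.map_subset_map.2 hS
  · intro S _ S' _ h
    exact Finset.map_injective _ h
  · intro S hS
    rw [mem_powerset, Finset.subset_map_iff] at hS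
    obtain ⟨S', hS', rfl⟩ := hS
    exact ⟨S', mem_powerset.2 hS', rfl⟩
  · intro S _
    rfl

open Classical in
/-- coefficients at sets of pairs -/
noncomputable def upc (q D L : ℕ) (t : Finset (Pt q D L) → G) (S : Finset (ℕ × ℕ)) : G :=
  if S = (univ.filter fun x => emp q D L x ∈ S).map (emp q D L)
  then t (univ.filter fun x => emp q D L x ∈ S) else 0

theorem upc_map (q D L : ℕ) (t : Finset (Pt q D L) → G) (S : Finset (Pt q D L)) :
    upc q D L t (S.map (emp q D L)) = t S := by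
  classical
  have h1 : (univ.filter fun x => emp q D L x ∈ S.map (emp q D L)) = S := by
    ext x
    rw [mem_filter, mem_map']
    exact ⟨fun h => h.2, fun h => ⟨mem_univ _, h⟩⟩
  have h2 : (univ.filter fun x => emp q D L x ∈ S.map (emp q D L)).map (emp q D L) =
      S.map (emp q D L) := by rw [h1]
  unfold upc
  rw [if_pos (by convert h2.symm)]
  exact congrArg t (by convert h1)

theorem upc_ne {q D L : ℕ} {t : Finset (Pt q D L) → G} {S : Finset (ℕ × ℕ)}
    (h : upc q D L t S ≠ 0) : ∃ S' : Finset (Pt q D L), S = S'.map (emp q D L) ∧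
      upc q D L t S = t S' := by
  classical
  by_cases h1 : ∃ S' : Finset (Pt q D L), S = S'.map (emp q D L)
  · obtain ⟨S', rfl⟩ := h1
    exact ⟨S', rfl, upc_map q D L t S'⟩
  · exfalso
    apply h
    unfold upc
    rw [if_neg]
    intro h2
    exact h1 ⟨_, h2⟩

theorem FP_up (q D L : ℕ) (t : Finset (Pt q D L) → G) (n : ℕ) :
    FP q D L (upc q D L t) n = DI.FP q D L t n := by
  rw [FP_br]
  congr 1
  funext S
  exact upc_map q D L t S

theorem isPL_iff {q d D L : ℕ} {f : ℕ → G} : DI.IsPL q d D L f ↔ IsP q D d L f := by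
  constructor
  · rintro ⟨t, ht, hf⟩
    refine ⟨upc q D L t, fun S hS => ?_, funext fun n => ?_⟩
    · by_contra h
      obtain ⟨S', rfl, h2⟩ := upc_ne h
      rw [card_map] at hS
      exact h (h2.trans (ht S' hS))
    · rw [FP_up]
      exact hf n
  · rintro ⟨t, ht, rfl⟩
    refine ⟨fun S => t (S.map (emp q D L)), fun S hS => ?_, fun n => FP_br q D L t n⟩
    exact ht _ (by rwa [card_map])

theorem isP_iff {q d D : ℕ} {f : ℕ → G} : DI.IsP q d D f ↔ ∃ L, IsP q D d L f := by
  constructor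
  · rintro ⟨L, h⟩
    exact ⟨L, isPL_iff.1 h⟩
  · rintro ⟨L, h⟩
    exact ⟨L, isPL_iff.2 h⟩

end

end Pool.Agent.Lib.MP_3e612f_nt.DI.U
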