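import Pool.Agent.Lib.MP_3e612f_nt.DI.U.Ph
import Pool.Agent.Lib.MP_3e612f_nt.PI.UXA
import Pool.Agent.Lib.MP_3e612f_nt.Cov
import Pool.Agent.Lib.MP_3e612f_nt.PS.SubD2

/-!
The universal subshift of all phases with interactions of `d` windows: nonempty, invariant, closed,
few words, zero entropy (as `PI/UXA.lean`, `PI/UXE.lean`).
-/

set_option autoImplicit false

namespace Pool.Agent.Lib.MP_3e612f_nt.DI

open Finset
open Pool.Agent.Lib.MP_3e612f_nt.PI (wd ee mc)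

/-- all sequences whose initial blocks occur in phases with interactions of `d` windows -/
def UXD (q D d : ℕ) (A : Type) [AddCommGroup A] : Set (ℕ → A) :=
  {x | ∀ l : ℕ, ∃ (F : (Fin d → ℕ) → (Fin d → ℕ) → A) (L s : ℕ),
    ∀ i < l, x i = phd q D d L F (i + s)}

variable {A : Type} [AddCommGroup A]

theorem UXD_nonempty (q D d : ℕ) : (fun _ => (0 : A)) ∈ UXD q D d A := by
  intro l
  refine ⟨fun _ _ => 0, 0, 0, fun i _ => ?_⟩
  simp [phd]

theorem UXD_shift {q D d : ℕ} {x : ℕ → A} (hx : x ∈ UXD q D d A) (n : ℕ) :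
    (fun i => x (i + n)) ∈ UXD q D d A := by
  intro l
  obtain ⟨F, L, s, h⟩ := hx (l + n)
  refine ⟨F, L, n + s, fun i hi => ?_⟩
  have h1 := h (i + n) (by omega)
  show x (i + n) = phd q D d L F (i + (n + s))
  rw [h1, Nat.add_assoc]

theorem UXD_closed [TopologicalSpace A] [DiscreteTopology A] (q D d : ℕ) :
    IsClosed (UXD q D d A) := by
  rw [← isOpen_compl_iff, isOpen_iff_forall_mem_open]
  intro x hx
  have h1 : ∃ l : ℕ, ¬ ∃ (F : (Fin d → ℕ) → (Fin d → ℕ) → A) (L s : ℕ),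
      ∀ i < l, x i = phd q D d L F (i + s) := by
    by_contra h
    push Not at h
    exact hx (fun l => h l)
  obtain ⟨l, hl⟩ := h1
  refine ⟨{y : ℕ → A | ∀ i < l, y i = x i}, ?_, PI.UXA_open_cyl x l, fun i _ => rfl⟩
  intro y hy hyU
  apply hl
  obtain ⟨F, L, s, h⟩ := hyU l
  exact ⟨F, L, s, fun i hi => (hy i hi).symm.trans (h i hi)⟩

/-- the block determined by truncated data -/
def UXD_val (q D d k : ℕ) (A : Type) [AddCommGroup A]
    (t : Fin (q ^ k) × ((Fin d → Fin (k + 1)) → (Fin d → Fin (q ^ (D + 1))) → A))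
    (i : ℕ) : A :=
  phd q D d (k + 1) (fun j x =>
    if h : (∀ a, j a < k + 1) ∧ (∀ a, x a < q ^ (D + 1)) then
      t.2 (fun a => ⟨j a, h.1 a⟩) (fun a => ⟨x a, h.2 a⟩) else 0) (i + t.1)

theorem UXD_key (q D d : ℕ) (hq : 2 ≤ q) (A : Type) [AddCommGroup A] (k : ℕ) (x : ℕ → A)
    (hx : x ∈ UXD q D d A) : ∃ t, ∀ i < q ^ k, x i = UXD_val q D d k A t i := by
  obtain ⟨F, L, s, h⟩ := hx (q ^ k)
  obtain ⟨F', s', hs', h'⟩ := trunc_phd hq D d k (q ^ k) le_rfl L s F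
  refine ⟨(⟨s', hs'⟩, fun j x => F' (fun a => j a) (fun a => x a)), fun i hi => ?_⟩
  rw [h i hi, h' i hi.le]
  unfold UXD_val phd
  refine sum_congr rfl fun j hj => ?_
  have hQ : 0 < q ^ (D + 1) := Nat.pow_pos (by omega)
  rw [Fintype.mem_piFinset] at hj
  have h1 : (∀ a, j a < k + 1) ∧ (∀ a, wd q D (j a) (i + s') < q ^ (D + 1)) :=
    ⟨fun a => mem_range.1 (hj a), fun a => Nat.mod_lt _ hQ⟩
  show F' j (fun a => wd q D (j a) (i + s')) =
    if h : (∀ a, j a < k + 1) ∧ (∀ a, wd q D (j a) (i + s') < q ^ (D + 1)) then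
      F' (fun a => j a) (fun a => wd q D (j a) (i + s')) else 0
  rw [dif_pos h1]

theorem UXD_words (q D d : ℕ) (hq : 2 ≤ q) (A : Type) [AddCommGroup A] [Finite A] :
    ∃ a : ℕ, 1 ≤ a ∧ ∀ k : ℕ, ∃ c : (ℕ → A) → Fin (a ^ ((k + 1) ^ (d + 1))),
      ∀ x ∈ UXD q D d A, ∀ y ∈ UXD q D d A, c x = c y → ∀ i < q ^ k, x i = y i := by
  classical
  have _ : Fintype A := Fintype.ofFinite A
  have hA : 0 < Fintype.card A := Fintype.card_pos
  refine ⟨q * Fintype.card A ^ ((q ^ (D + 1)) ^ d),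
    Nat.mul_pos (by omega) (Nat.pow_pos hA), fun k => ?_⟩
  have hcard : Fintype.card
      (Fin (q ^ k) × ((Fin d → Fin (k + 1)) → (Fin d → Fin (q ^ (D + 1))) → A)) ≤
      (q * Fintype.card A ^ ((q ^ (D + 1)) ^ d)) ^ ((k + 1) ^ (d + 1)) := by
    rw [Fintype.card_prod, Fintype.card_fun, Fintype.card_fun, Fintype.card_fun, Fintype.card_fun,
      Fintype.card_fin, Fintype.card_fin, Fintype.card_fin, Fintype.card_fin, mul_pow]
    have h1 : k ≤ (k + 1) ^ (d + 1) := by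
      calc k ≤ (k + 1) ^ 1 := by rw [pow_one]; omega
        _ ≤ (k + 1) ^ (d + 1) := Nat.pow_le_pow_right (by omega) (by omega)
    have h2 : (k + 1) ^ d ≤ (k + 1) ^ (d + 1) := Nat.pow_le_pow_right (by omega) (by omega)
    exact Nat.mul_le_mul (Nat.pow_le_pow_right (by omega) h1)
      (Nat.pow_le_pow_right (Nat.pow_pos hA) h2)
  have key : ∀ x : ℕ → A, ∃ t, x ∈ UXD q D d A → ∀ i < q ^ k, x i = UXD_val q D d k A t i := by
    intro x
    by_cases hx : x ∈ UXD q D d A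
    · obtain ⟨t, ht⟩ := UXD_key q D d hq A k x hx
      exact ⟨t, fun _ => ht⟩
    · exact ⟨(⟨0, Nat.pow_pos (by omega)⟩, fun _ _ => 0), fun h => absurd h hx⟩
  choose t ht using key
  refine ⟨fun x => Fin.castLE hcard (Fintype.equivFin _ (t x)), fun x hx y hy hxy i hi => ?_⟩
  have h1 : t x = t y := (Fintype.equivFin _).injective (Fin.castLE_injective hcard hxy)
  rw [ht x hx i hi, ht y hy i hi, h1]

theorem UXD_growth {C δ : ℝ} (hC : 0 ≤ C) (hδ : 0 < δ) (q m e : ℕ) (hq : 2 ≤ q) :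
    ∃ k : ℕ, m + 1 ≤ q ^ k ∧ ((k : ℝ) + 1) ^ e * C ≤ δ * ((q ^ k - m : ℕ) : ℝ) := by
  have h1 := tendsto_pow_const_div_const_pow_of_one_lt e (one_lt_two : (1 : ℝ) < 2)
  have hD : (0 : ℝ) < δ / (2 ^ e * C + δ * m + 1) := by positivity
  have h2 := (h1.eventually_lt_const hD).and (Filter.eventually_ge_atTop (m + 1))
  obtain ⟨k, hk1, hk2⟩ := h2.exists
  have hqk : 2 ^ k ≤ q ^ k := Nat.pow_le_pow_left hq k
  have h3 : m + 1 ≤ q ^ k := (hk2.trans (Nat.lt_two_pow_self).le).trans hqk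
  refine ⟨k, h3, ?_⟩
  rw [Nat.cast_sub (by omega)]
  push_cast
  have hqk' : (2 : ℝ) ^ k ≤ (q : ℝ) ^ k := by exact_mod_cast hqk
  rw [div_lt_div_iff₀ (by positivity) (by positivity)] at hk1
  have hk3 : (1 : ℝ) ≤ k := by exact_mod_cast (by omega : 1 ≤ k)
  have h6 : (1 : ℝ) ≤ (k : ℝ) ^ e := one_le_pow₀ hk3
  have h4 : ((k : ℝ) + 1) ^ e * C ≤ 2 ^ e * (k : ℝ) ^ e * C := by
    apply mul_le_mul_of_nonneg_right _ hC
    rw [← mul_pow]
    exact pow_le_pow_left₀ (by positivity) (by linarith) e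
  have h5 : δ * m ≤ (k : ℝ) ^ e * (δ * m) := by
    have : (0 : ℝ) ≤ δ * m := by positivity
    nlinarith
  have h7 : δ * (2 : ℝ) ^ k ≤ δ * (q : ℝ) ^ k := mul_le_mul_of_nonneg_left hqk' hδ.le
  have h8 : (0 : ℝ) ≤ (k : ℝ) ^ e := by positivity
  nlinarith

theorem UXD_entropy (q D d : ℕ) (hq : 2 ≤ q) (A : Type) [AddCommGroup A] [Finite A]
    [UniformSpace A] [DiscreteUniformity A] :
    Dynamics.coverEntropy (fun (x : ℕ → A) i => x (i + 1)) (UXD q D d A) = 0 := by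
  apply le_antisymm
  · have hmaps : Set.MapsTo (fun (x : ℕ → A) i => x (i + 1)) (UXD q D d A) (UXD q D d A) :=
      fun x hx => UXD_shift hx 1
    have : Filter.IsCountablyGenerated (uniformity A) := by
      rw [DiscreteUniformity.eq_principal_setRelId]
      infer_instance
    let _ : PseudoMetricSpace (ℕ → A) := UniformSpace.pseudoMetricSpace (ℕ → A)
    refine coverEntropy_le_zero hmaps ?_
    intro ε hε δ hδ
    obtain ⟨m, hm⟩ := PS.SubD2_unif (G := A) (U := {p | dist p.1 p.2 < ε})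
      (Metric.dist_mem_uniformity hε)
    obtain ⟨a, ha, hw⟩ := UXD_words q D d hq A
    obtain ⟨k, hk1, hk2⟩ := UXD_growth (C := Real.log a) (Real.log_nonneg (by exact_mod_cast ha))
      hδ q m (d + 1) hq
    obtain ⟨c, hc⟩ := hw k
    refine ⟨q ^ k - m, by omega, a ^ ((k + 1) ^ (d + 1)), ?_, c, ?_⟩
    · push_cast
      rw [Real.log_pow]
      push_cast
      exact hk2
    · intro x hx y hy hxy j hj
      apply hm
      intro i hi
      rw [PS.SubD2_iterate, PS.SubD2_iterate]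
      exact hc x hx y hy hxy (i + j) (by omega)
  · exact Dynamics.coverEntropy_nonneg _ ⟨_, UXD_nonempty q D d⟩

end Pool.Agent.Lib.MP_3e612f_nt.DI
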