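import Pool.Agent.Lib.MP_3e612f_nt.DI.U.Ph
import Pool.Agent.Lib.MP_3e612f_nt.PI.Str

/-!
Features and feature phases: (F1) and (F2) of h7_DI_GF.md.

A feature of `n` is a pair `(i, c)` such that the window of `n` at `i` is `c` and the lowest digit of `c`
is not zero. A feature phase of degree `≤ d` is `n ↦ ∑_{S ⊆ ftr n} t S`, `t S = 0` for `|S| > d`.
`isP_of_dep`: a function which only depends on the windows at the positions of `P` is a feature phase of
degree `≤ |P|`.
-/

set_option autoImplicit false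

namespace Pool.Agent.Lib.MP_3e612f_nt.DI.U

open Finset
open Pool.Agent.Lib.MP_3e612f_nt.PI (wd ee mc Str_wd)

/-- the features of `n` at the positions `< L` -/
def ftr (q D L n : ℕ) : Finset (ℕ × ℕ) :=
  (range L ×ˢ range (q ^ (D + 1))).filter fun x => wd q D x.1 n = x.2 ∧ x.2 % q ≠ 0

theorem mem_ftr {q D L n : ℕ} (hq : 2 ≤ q) {x : ℕ × ℕ} :
    x ∈ ftr q D L n ↔ x.1 < L ∧ wd q D x.1 n = x.2 ∧ x.2 % q ≠ 0 := by
  unfold ftr
  rw [mem_filter, mem_product, mem_range, mem_range]
  constructor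
  · rintro ⟨⟨h1, _⟩, h3⟩
    exact ⟨h1, h3⟩
  · rintro ⟨h1, h2, h3⟩
    refine ⟨⟨h1, ?_⟩, h2, h3⟩
    rw [← h2]
    exact Nat.mod_lt _ (Nat.pow_pos (by omega))

section
variable {G : Type} [AddCommGroup G]

/-- feature phases -/
def FP (q D L : ℕ) (t : Finset (ℕ × ℕ) → G) (n : ℕ) : G :=
  ∑ S ∈ (ftr q D L n).powerset, t S

/-- being a feature phase of degree `≤ d` -/
def IsP (q D d L : ℕ) (f : ℕ → G) : Prop :=
  ∃ t : Finset (ℕ × ℕ) → G, (∀ S, d < S.card → t S = 0) ∧ f = FP q D L t

theorem IsP.zero (q D d L : ℕ) : IsP q D d L (fun _ => (0 : G)) := by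
  refine ⟨fun _ => 0, fun _ _ => rfl, ?_⟩
  funext n
  simp [FP]

theorem IsP.const (q D d L : ℕ) (g : G) : IsP q D d L (fun _ => g) := by
  refine ⟨fun S => if S = ∅ then g else 0, fun S hS => ?_, ?_⟩
  · beta_reduce
    rw [if_neg]
    rintro rfl
    simp at hS
  · funext n
    unfold FP
    rw [Finset.sum_ite_eq' _ ∅, if_pos (empty_mem_powerset _)]

theorem IsP.mono_deg {q D d d' L : ℕ} {f : ℕ → G} (hf : IsP q D d L f) (h : d ≤ d') :
    IsP q D d' L f := by
  obtain ⟨t, ht, rfl⟩ := hf
  exact ⟨t, fun S hS => ht S (by omega), rfl⟩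

theorem IsP.add {q D d L : ℕ} {f h : ℕ → G} (hf : IsP q D d L f) (hh : IsP q D d L h) :
    IsP q D d L (fun n => f n + h n) := by
  obtain ⟨t, ht, rfl⟩ := hf
  obtain ⟨t', ht', rfl⟩ := hh
  refine ⟨fun S => t S + t' S, fun S hS => by beta_reduce; rw [ht S hS, ht' S hS, add_zero], ?_⟩
  funext n
  unfold FP
  rw [Finset.sum_add_distrib]

theorem IsP.map {q D d L : ℕ} {G' : Type} [AddCommGroup G'] (φ : G →+ G') {f : ℕ → G}
    (hf : IsP q D d L f) : IsP q D d L (fun n => φ (f n)) := by
  obtain ⟨t, ht, rfl⟩ := hf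
  refine ⟨fun S => φ (t S), fun S hS => by beta_reduce; rw [ht S hS, map_zero], ?_⟩
  funext n
  unfold FP
  rw [map_sum]

theorem IsP.neg {q D d L : ℕ} {f : ℕ → G} (hf : IsP q D d L f) :
    IsP q D d L (fun n => - f n) := by
  obtain ⟨t, ht, rfl⟩ := hf
  refine ⟨fun S => - t S, fun S hS => by beta_reduce; rw [ht S hS, neg_zero], ?_⟩
  funext n
  unfold FP
  rw [Finset.sum_neg_distrib]

theorem IsP.sub {q D d L : ℕ} {f h : ℕ → G} (hf : IsP q D d L f) (hh : IsP q D d L h) :
    IsP q D d L (fun n => f n - h n) := by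
  have h1 := hf.add hh.neg
  simpa [sub_eq_add_neg] using h1

theorem IsP.sum {q D d L : ℕ} {ι : Type} (S : Finset ι) {f : ι → ℕ → G}
    (hf : ∀ i ∈ S, IsP q D d L (f i)) : IsP q D d L (fun n => ∑ i ∈ S, f i n) := by
  classical
  induction S using Finset.induction_on with
  | empty =>
    simp only [Finset.sum_empty]
    exact IsP.zero q D d L
  | insert a S ha ih =>
    have h1 := IsP.add (hf a (mem_insert_self a S)) (ih fun i hi => hf i (mem_insert_of_mem hi))
    have h2 : (fun n => ∑ i ∈ insert a S, f i n) = fun n => f a n + ∑ i ∈ S, f i n := by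
      funext n
      rw [Finset.sum_insert ha]
    rw [h2]
    exact h1

/-- multiplication by the indicator of a feature -/
theorem IsP.ite {q D d L : ℕ} {f : ℕ → G} (hf : IsP q D d L f) (x : ℕ × ℕ) :
    IsP q D (d + 1) L (fun n => if x ∈ ftr q D L n then f n else 0) := by
  obtain ⟨t, ht, rfl⟩ := hf
  refine ⟨fun U => if x ∈ U then t U + t (U.erase x) else 0, fun U hU => ?_, ?_⟩
  · beta_reduce
    split_ifs with hx
    · rw [ht U (by omega), ht (U.erase x) (by rw [card_erase_of_mem hx]; omega), add_zero]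
    · rfl
  · funext n
    unfold FP
    by_cases hx : x ∈ ftr q D L n
    · rw [if_pos hx, ← Finset.insert_erase hx, Finset.sum_powerset_insert (notMem_erase x _),
        Finset.sum_powerset_insert (notMem_erase x _)]
      have h1 : ∑ U ∈ ((ftr q D L n).erase x).powerset,
          (if x ∈ U then t U + t (U.erase x) else 0) = 0 := by
        refine Finset.sum_eq_zero fun U hU => ?_
        rw [if_neg]
        intro h
        exact notMem_erase x _ (mem_powerset.1 hU h)
      rw [h1, zero_add, ← Finset.sum_add_distrib]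
      refine Finset.sum_congr rfl fun U hU => ?_
      have h2 : x ∉ U := fun h => notMem_erase x _ (mem_powerset.1 hU h)
      rw [if_pos (mem_insert_self x U), erase_insert h2, add_comm]
    · rw [if_neg hx]
      symm
      refine Finset.sum_eq_zero fun U hU => ?_
      rw [if_neg]
      intro h
      exact hx (mem_powerset.1 hU h)

/-- the digits of a window, one after the other -/
theorem Feat_window {q : ℕ} (hq : 2 ≤ q) (D i n u : ℕ) (hu : u ≤ D) :
    wd q D i n - wd q D i n % q ^ u = q ^ u * (wd q D (i + u) n % q ^ (D + 1 - u)) ∧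
      wd q D i n - wd q D i n % q ^ (u + 1) =
        q ^ u * (wd q D (i + u) n % q ^ (D + 1 - u) - wd q D (i + u) n % q) := by
  have hq0 : 0 < q := by omega
  have h1 : wd q D i n / q ^ u = wd q D (i + u) n % q ^ (D + 1 - u) := by
    unfold wd
    have e1 : q ^ (D + 1) = q ^ u * q ^ (D + 1 - u) := by
      rw [← pow_add]
      congr 1
      omega
    have e2 : q ^ (D + 1) = q ^ (D + 1 - u) * q ^ u := by rw [e1, mul_comm]
    rw [Nat.mod_mod_of_dvd _ (pow_dvd_pow q (by omega : D + 1 - u ≤ D + 1)), e1,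
      Nat.mod_mul_right_div_self, pow_add, Nat.div_div_eq_div_mul]
  set w := wd q D i n with hw
  set c := wd q D (i + u) n with hc
  have h2 := Nat.div_add_mod w (q ^ u)
  have h3 : w / q ^ u % q = c % q := by
    rw [h1, Nat.mod_mod_of_dvd _ (dvd_pow_self q (by omega : D + 1 - u ≠ 0))]
  constructor
  · rw [← h1]
    omega
  · have h4 : w % q ^ (u + 1) = w % q ^ u + q ^ u * (w / q ^ u % q) := by
      rw [pow_succ, Nat.mod_mul]
    rw [Nat.mul_sub, ← h1, ← h3, h4]
    omega

/-- functions of one window and of `n` -/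
theorem IsP.window {q D d L : ℕ} (hq : 2 ≤ q) {i : ℕ} (hi : i < L) (Ψ : ℕ → ℕ → G)
    (hΨ : ∀ w, IsP q D d (L + D) (Ψ w)) :
    IsP q D (d + 1) (L + D) (fun n => Ψ (wd q D i n) n) := by
  have hq0 : 0 < q := by omega
  -- the coefficients
  let β : ℕ → ℕ → ℕ → G := fun u c n => Ψ (q ^ u * (c % q ^ (D + 1 - u))) n -
    Ψ (q ^ u * (c % q ^ (D + 1 - u) - c % q)) n
  have key : ∀ n, Ψ (wd q D i n) n = Ψ 0 n + ∑ u ∈ range (D + 1),
      ∑ c ∈ (range (q ^ (D + 1))).filter (fun c => c % q ≠ 0),
        (if (i + u, c) ∈ ftr q D (L + D) n then β u c n else 0) := by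
    intro n
    set w := wd q D i n with hw
    have hwlt : w < q ^ (D + 1) := Nat.mod_lt _ (Nat.pow_pos hq0)
    have h1 : ∑ u ∈ range (D + 1), (Ψ (w - w % q ^ u) n - Ψ (w - w % q ^ (u + 1)) n) =
        Ψ w n - Ψ 0 n := by
      rw [Finset.sum_range_sub', pow_zero, Nat.mod_one, Nat.sub_zero, Nat.mod_eq_of_lt hwlt,
        Nat.sub_self]
    rw [← sub_eq_iff_eq_add', ← h1]
    refine Finset.sum_congr rfl fun u hu => ?_
    have hu' : u ≤ D := by
      have := mem_range.1 hu
      omega
    obtain ⟨h2, h3⟩ := Feat_window hq D i n u hu'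
    rw [h2, h3]
    set c := wd q D (i + u) n with hc
    show β u c n = _
    by_cases hc0 : c % q = 0
    · have h4 : β u c n = 0 := by
        show Ψ _ n - Ψ _ n = 0
        rw [hc0, Nat.sub_zero, sub_self]
      rw [h4]
      symm
      refine Finset.sum_eq_zero fun c' hc' => ?_
      rw [if_neg]
      intro h5
      rw [mem_ftr hq] at h5
      have h6 : c = c' := h5.2.1
      exact (mem_filter.1 hc').2 (h6 ▸ hc0)
    · rw [Finset.sum_eq_single c]
      · rw [if_pos]
        rw [mem_ftr hq]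
        refine ⟨?_, rfl, hc0⟩
        show i + u < L + D
        omega
      · intro c' hc' hne
        rw [if_neg]
        intro h5
        rw [mem_ftr hq] at h5
        exact hne h5.2.1.symm
      · intro h5
        exfalso
        apply h5
        rw [mem_filter, mem_range]
        exact ⟨Nat.mod_lt _ (Nat.pow_pos hq0), hc0⟩
  have h1 : (fun n => Ψ (wd q D i n) n) = fun n => Ψ 0 n + ∑ u ∈ range (D + 1),
      ∑ c ∈ (range (q ^ (D + 1))).filter (fun c => c % q ≠ 0),
        (if (i + u, c) ∈ ftr q D (L + D) n then β u c n else 0) := funext key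
  rw [h1]
  refine IsP.add ((hΨ 0).mono_deg (by omega)) (IsP.sum _ fun u _ => IsP.sum _ fun c _ => ?_)
  exact IsP.ite ((hΨ _).sub (hΨ _)) (i + u, c)

/-- **(F1)** functions of the windows at the positions of `P` -/
theorem isP_of_dep {q : ℕ} (hq : 2 ≤ q) (D L : ℕ) (P : Finset ℕ) :
    (∀ i ∈ P, i < L) → ∀ φ : ℕ → G,
      (∀ n n', (∀ i ∈ P, wd q D i n = wd q D i n') → φ n = φ n') →
        IsP q D P.card (L + D) φ := by
  classical
  induction P using Finset.induction_on with
  | empty =>
    intro _ φ h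
    have h1 : φ = fun _ => φ 0 := funext fun n => h n 0 (by simp)
    rw [h1]
    exact IsP.const _ _ _ _ _
  | insert i P hi ih =>
    intro hP φ h
    rw [card_insert_of_notMem hi]
    let Ψ : ℕ → ℕ → G := fun w n =>
      if h : ∃ m, wd q D i m = w ∧ ∀ k ∈ P, wd q D k m = wd q D k n then φ h.choose else 0
    have h1 : φ = fun n => Ψ (wd q D i n) n := by
      funext n
      have h2 : ∃ m, wd q D i m = wd q D i n ∧ ∀ k ∈ P, wd q D k m = wd q D k n :=
        ⟨n, rfl, fun _ _ => rfl⟩
      show φ n = if h : ∃ m, wd q D i m = wd q D i n ∧ ∀ k ∈ P, wd q D k m = wd q D k n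
        then φ h.choose else 0
      rw [dif_pos h2]
      refine h _ _ fun k hk => ?_
      rcases mem_insert.1 hk with rfl | hk
      · exact h2.choose_spec.1.symm
      · exact (h2.choose_spec.2 k hk).symm
    rw [h1]
    refine IsP.window hq (hP i (mem_insert_self i P)) Ψ fun w => ?_
    refine ih (fun k hk => hP k (mem_insert_of_mem hk)) (Ψ w) fun n n' hn => ?_
    have h3 : (∃ m, wd q D i m = w ∧ ∀ k ∈ P, wd q D k m = wd q D k n) ↔
        (∃ m, wd q D i m = w ∧ ∀ k ∈ P, wd q D k m = wd q D k n') := by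
      constructor
      · rintro ⟨m, h4, h5⟩
        exact ⟨m, h4, fun k hk => (h5 k hk).trans (hn k hk)⟩
      · rintro ⟨m, h4, h5⟩
        exact ⟨m, h4, fun k hk => (h5 k hk).trans (hn k hk).symm⟩
    show (if h : ∃ m, wd q D i m = w ∧ ∀ k ∈ P, wd q D k m = wd q D k n then φ h.choose else 0) =
      if h : ∃ m, wd q D i m = w ∧ ∀ k ∈ P, wd q D k m = wd q D k n' then φ h.choose else 0
    by_cases h6 : ∃ m, wd q D i m = w ∧ ∀ k ∈ P, wd q D k m = wd q D k n
    · have h7 := h3.1 h6
      rw [dif_pos h6, dif_pos h7]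
      refine h _ _ fun k hk => ?_
      rcases mem_insert.1 hk with rfl | hk
      · rw [h6.choose_spec.1, h7.choose_spec.1]
      · rw [h6.choose_spec.2 k hk, h7.choose_spec.2 k hk, hn k hk]
    · rw [dif_neg h6, dif_neg fun h8 => h6 (h3.2 h8)]

/-- phases with interactions of `d` windows are feature phases -/
theorem isP_phd {q : ℕ} (hq : 2 ≤ q) (D d L : ℕ) (F : (Fin d → ℕ) → (Fin d → ℕ) → G) :
    IsP q D d (L + D) (phd q D d L F) := by
  classical
  have h1 : phd q D d L F = fun n => ∑ j ∈ Fintype.piFinset (fun _ : Fin d => range L),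
    F j (fun a => wd q D (j a) n) := rfl
  rw [h1]
  refine IsP.sum _ fun j hj => ?_
  rw [Fintype.mem_piFinset] at hj
  have h2 := isP_of_dep hq D L (univ.image j) (fun i hi => by
    obtain ⟨a, _, rfl⟩ := mem_image.1 hi
    exact mem_range.1 (hj a)) (fun n => F j (fun a => wd q D (j a) n)) (fun n n' h => by
      show F j _ = F j _
      congr 1
      funext a
      exact h _ (mem_image_of_mem _ (mem_univ a)))
  refine h2.mono_deg ?_
  have h3 := card_image_le (s := (univ : Finset (Fin d))) (f := j)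
  rwa [card_univ, Fintype.card_fin] at h3

end

end Pool.Agent.Lib.MP_3e612f_nt.DI.U
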