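import Pool.Agent.Lib.MP_3e612f_nt.DI.U.Feat

/-!
Feature phases: change of the window size and of the number of positions, merging (F2), feature phases
are phases with interactions of `d` windows, truncation.
-/

set_option autoImplicit false

namespace Pool.Agent.Lib.MP_3e612f_nt.DI.U

open Finset
open Pool.Agent.Lib.MP_3e612f_nt.PI (wd ee mc Str_wd)

section
variable {G : Type} [AddCommGroup G]

theorem FP_eq (q D L : ℕ) (t : Finset (ℕ × ℕ) → G) (n : ℕ) :
    FP q D L t n = ∑ S ∈ (range L ×ˢ range (q ^ (D + 1))).powerset,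
      if S ⊆ ftr q D L n then t S else 0 := by
  unfold FP
  rw [← Finset.sum_filter]
  congr 1
  ext S
  rw [mem_filter, mem_powerset, mem_powerset]
  exact ⟨fun h => ⟨h.trans (filter_subset _ _), h⟩, fun h => h.2⟩

/-- containment of `S` in the features only depends on the windows at the positions of `S` -/
theorem sub_ftr_congr {q D L n n' : ℕ} (hq : 2 ≤ q) {S : Finset (ℕ × ℕ)}
    (h : ∀ x ∈ S, wd q D x.1 n = wd q D x.1 n') : S ⊆ ftr q D L n ↔ S ⊆ ftr q D L n' := by
  constructor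
  · intro h1 x hx
    have h2 := h1 hx
    rw [mem_ftr hq] at h2 ⊢
    rw [← h x hx]
    exact h2
  · intro h1 x hx
    have h2 := h1 hx
    rw [mem_ftr hq] at h2 ⊢
    rw [h x hx]
    exact h2

theorem FP_low {q D L L' : ℕ} (hL : L ≤ L') (t : Finset (ℕ × ℕ) → G) (n : ℕ) :
    FP q D L' (fun S => if ∀ x ∈ S, x.1 < L then t S else 0) n = FP q D L t n := by
  unfold FP
  symm
  have hsub : (ftr q D L n).powerset ⊆ (ftr q D L' n).powerset := by
    refine powerset_mono.2 fun x hx => ?_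
    unfold ftr at hx ⊢
    rw [mem_filter, mem_product, mem_range] at hx ⊢
    exact ⟨⟨lt_of_lt_of_le hx.1.1 hL, hx.1.2⟩, hx.2⟩
  rw [← Finset.sum_subset hsub]
  · refine Finset.sum_congr rfl fun S hS => ?_
    rw [if_pos]
    intro x hx
    have h1 := mem_powerset.1 hS hx
    unfold ftr at h1
    rw [mem_filter, mem_product, mem_range] at h1
    exact h1.1.1
  · intro S hS hS'
    rw [if_neg]
    intro h
    apply hS'
    rw [mem_powerset] at hS ⊢
    intro x hx
    have h1 := hS hx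
    unfold ftr at h1 ⊢
    rw [mem_filter, mem_product, mem_range] at h1 ⊢
    exact ⟨⟨h x hx, h1.1.2⟩, h1.2⟩

theorem IsP.mono_L {q D d L L' : ℕ} {f : ℕ → G} (hf : IsP q D d L f) (hL : L ≤ L') :
    IsP q D d L' f := by
  obtain ⟨t, ht, rfl⟩ := hf
  refine ⟨fun S => if ∀ x ∈ S, x.1 < L then t S else 0, fun S hS => ?_, ?_⟩
  · beta_reduce
    rw [ht S hS, ite_self]
  · funext n
    exact (FP_low hL t n).symm

/-- `[S ⊆ ftr n] g` for a set of at most `d` points is a feature phase for larger windows -/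
theorem isP_ind {q D D' d L : ℕ} (hq : 2 ≤ q) (hD : D ≤ D') (S : Finset (ℕ × ℕ)) (hS : S.card ≤ d)
    (hL : ∀ x ∈ S, x.1 < L) (g : G) :
    IsP q D' d (L + D') (fun n => if S ⊆ ftr q D L n then g else 0) := by
  classical
  have h1 := isP_of_dep hq D' L (S.image Prod.fst) (fun i hi => by
    obtain ⟨x, hx, rfl⟩ := mem_image.1 hi
    exact hL x hx) (fun n => if S ⊆ ftr q D L n then g else 0) (fun n n' h => by
      have h2 : S ⊆ ftr q D L n ↔ S ⊆ ftr q D L n' := by
        refine sub_ftr_congr hq fun x hx => ?_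
        have h3 := h x.1 (mem_image_of_mem _ hx)
        rw [Str_wd (D' := D') (le_refl x.1) (by omega), h3,
          ← Str_wd (D' := D') (le_refl x.1) (by omega)]
      simp only [h2])
  exact h1.mono_deg (card_image_le.trans hS)

/-- **(F2)** two points of `S` at distance `≤ W`: one window less -/
theorem isP_merge {q D W d L : ℕ} (hq : 2 ≤ q) (S : Finset (ℕ × ℕ)) (hS : S.card ≤ d)
    (hL : ∀ x ∈ S, x.1 < L) {x y : ℕ × ℕ} (hx : x ∈ S) (hy : y ∈ S) (hne : x ≠ y)
    (hle : x.1 ≤ y.1) (hW : y.1 ≤ x.1 + W) (g : G) :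
    IsP q (D + W) (d - 1) (L + (D + W)) (fun n => if S ⊆ ftr q D L n then g else 0) := by
  classical
  have h1 := isP_of_dep hq (D + W) L ((S.erase y).image Prod.fst) (fun i hi => by
    obtain ⟨z, hz, rfl⟩ := mem_image.1 hi
    exact hL z (mem_of_mem_erase hz)) (fun n => if S ⊆ ftr q D L n then g else 0)
    (fun n n' h => by
      have h2 : S ⊆ ftr q D L n ↔ S ⊆ ftr q D L n' := by
        refine sub_ftr_congr hq fun z hz => ?_
        by_cases hzy : z = y
        · have h3 := h x.1 (mem_image_of_mem _ (mem_erase.2 ⟨hne, hx⟩))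
          rw [hzy, Str_wd (D' := D + W) hle (by omega), h3,
            ← Str_wd (D' := D + W) hle (by omega)]
        · have h3 := h z.1 (mem_image_of_mem _ (mem_erase.2 ⟨hzy, hz⟩))
          rw [Str_wd (D' := D + W) (le_refl z.1) (by omega), h3,
            ← Str_wd (D' := D + W) (le_refl z.1) (by omega)]
      simp only [h2])
  refine h1.mono_deg (card_image_le.trans ?_)
  rw [card_erase_of_mem hy]
  omega

theorem IsP.mono {q D D' d L L' : ℕ} (hq : 2 ≤ q) {f : ℕ → G} (hf : IsP q D d L f)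
    (hD : D ≤ D') (hL : L + D' ≤ L') : IsP q D' d L' f := by
  obtain ⟨t, ht, rfl⟩ := hf
  have h1 : FP q D L t = fun n => ∑ S ∈ (range L ×ˢ range (q ^ (D + 1))).powerset,
      if S ⊆ ftr q D L n then t S else 0 := funext fun n => FP_eq q D L t n
  rw [h1]
  refine IsP.mono_L (IsP.sum _ fun S hS => ?_) hL
  by_cases hd : d < S.card
  · rw [ht S hd]
    have h2 : (fun n => if S ⊆ ftr q D L n then (0 : G) else 0) = fun _ => 0 := by
      funext n
      rw [ite_self]
    rw [h2]
    exact IsP.zero _ _ _ _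
  · exact isP_ind hq hD S (by omega) (fun x hx => by
      have h2 := mem_powerset.1 hS hx
      rw [mem_product, mem_range] at h2
      exact h2.1) (t S)

/-- feature phases of degree `≤ d` all of whose sets of `d` points have two points at distance `≤ W` -/
theorem isP_near {q D W d L : ℕ} (hq : 2 ≤ q) (t : Finset (ℕ × ℕ) → G)
    (ht : ∀ S, t S ≠ 0 → S.card + 1 ≤ d ∨
      (S.card ≤ d ∧ ∃ x ∈ S, ∃ y ∈ S, x ≠ y ∧ x.1 ≤ y.1 ∧ y.1 ≤ x.1 + W)) :
    IsP q (D + W) (d - 1) (L + (D + W)) (FP q D L t) := by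
  have h1 : FP q D L t = fun n => ∑ S ∈ (range L ×ˢ range (q ^ (D + 1))).powerset,
      if S ⊆ ftr q D L n then t S else 0 := funext fun n => FP_eq q D L t n
  rw [h1]
  refine IsP.sum _ fun S hS => ?_
  have hSL : ∀ x ∈ S, x.1 < L := by
    intro x hx
    have h2 := mem_powerset.1 hS hx
    rw [mem_product, mem_range] at h2
    exact h2.1
  by_cases h0 : t S = 0
  · rw [h0]
    have h2 : (fun n => if S ⊆ ftr q D L n then (0 : G) else 0) = fun _ => 0 := by
      funext n
      rw [ite_self]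
    rw [h2]
    exact IsP.zero _ _ _ _
  rcases ht S h0 with h | ⟨h, x, hx, y, hy, hne, hle, hW⟩
  · exact isP_ind hq (by omega) S (by omega) hSL (t S)
  · exact isP_merge hq S h hSL hx hy hne hle hW (t S)

/-- functions of the windows at `j 0, .., j (d - 1)` -/
theorem phd_of_dep {q D d L : ℕ} (j : Fin d → ℕ) (hj : ∀ a, j a < L) (φ : ℕ → G)
    (h : ∀ n n', (∀ a, wd q D (j a) n = wd q D (j a) n') → φ n = φ n') :
    ∃ F : (Fin d → ℕ) → (Fin d → ℕ) → G, φ = phd q D d L F := by
  classical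
  refine ⟨fun j' x => if j' = j then
    (if h : ∃ m, ∀ a, wd q D (j a) m = x a then φ h.choose else 0) else 0, ?_⟩
  funext n
  unfold phd
  rw [Finset.sum_eq_single j]
  · have h1 : ∃ m, ∀ a, wd q D (j a) m = wd q D (j a) n := ⟨n, fun _ => rfl⟩
    beta_reduce
    rw [if_pos rfl, dif_pos h1]
    exact h _ _ fun a => (h1.choose_spec a).symm
  · intro j' _ hne
    beta_reduce
    rw [if_neg hne]
  · intro hn
    exact absurd (Fintype.mem_piFinset.2 fun a => mem_range.2 (hj a)) hn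

theorem phd_sum' {q D d L : ℕ} {ι : Type} (S : Finset ι) {f : ι → ℕ → G}
    (hf : ∀ i ∈ S, ∃ F : (Fin d → ℕ) → (Fin d → ℕ) → G, f i = phd q D d L F) :
    ∃ F : (Fin d → ℕ) → (Fin d → ℕ) → G, (fun n => ∑ i ∈ S, f i n) = phd q D d L F := by
  classical
  choose! F hF using hf
  refine ⟨fun j x => ∑ i ∈ S, F i j x, ?_⟩
  funext n
  unfold phd
  rw [Finset.sum_comm]
  refine Finset.sum_congr rfl fun i hi => ?_
  rw [hF i hi]
  rfl

/-- a finite set of at most `d` positions is contained in the image of a tuple -/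
theorem exists_tuple {d L : ℕ} (hL : 1 ≤ L) (P : Finset ℕ) (hP : P.card ≤ d) (hPL : ∀ i ∈ P, i < L) :
    ∃ j : Fin d → ℕ, (∀ a, j a < L) ∧ ∀ i ∈ P, ∃ a, j a = i := by
  classical
  refine ⟨fun a => if h : a.1 < P.card then P.orderEmbOfFin rfl ⟨a.1, h⟩ else 0, fun a => ?_,
    fun i hi => ?_⟩
  · beta_reduce
    split_ifs with h
    · exact hPL _ (P.orderEmbOfFin_mem rfl _)
    · omega
  · have h1 : i ∈ Set.range (P.orderEmbOfFin rfl) := by
      rw [Finset.range_orderEmbOfFin]
      exact hi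
    obtain ⟨b, hb⟩ := h1
    refine ⟨⟨b.1, lt_of_lt_of_le b.2 hP⟩, ?_⟩
    beta_reduce
    rw [dif_pos b.2]
    exact hb

theorem IsP.to_phd {q D d L : ℕ} (hq : 2 ≤ q) (hL : 1 ≤ L) {f : ℕ → G} (hf : IsP q D d L f) :
    ∃ F : (Fin d → ℕ) → (Fin d → ℕ) → G, f = phd q D d L F := by
  classical
  obtain ⟨t, ht, rfl⟩ := hf
  have h1 : FP q D L t = fun n => ∑ S ∈ (range L ×ˢ range (q ^ (D + 1))).powerset,
      if S ⊆ ftr q D L n then t S else 0 := funext fun n => FP_eq q D L t n
  rw [h1]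
  refine phd_sum' _ fun S hS => ?_
  by_cases hd : d < S.card
  · refine ⟨fun _ _ => 0, ?_⟩
    funext n
    rw [ht S hd, ite_self]
    simp [phd]
  have hSL : ∀ x ∈ S, x.1 < L := by
    intro x hx
    have h2 := mem_powerset.1 hS hx
    rw [mem_product, mem_range] at h2
    exact h2.1
  obtain ⟨j, hj, hj'⟩ := exists_tuple (d := d) hL (S.image Prod.fst)
    (card_image_le.trans (by omega)) (fun i hi => by
      obtain ⟨x, hx, rfl⟩ := mem_image.1 hi
      exact hSL x hx)
  refine phd_of_dep j hj _ fun n n' h => ?_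
  have h2 : S ⊆ ftr q D L n ↔ S ⊆ ftr q D L n' := by
    refine sub_ftr_congr hq fun x hx => ?_
    obtain ⟨a, ha⟩ := hj' x.1 (mem_image_of_mem _ hx)
    rw [← ha]
    exact h a
  simp only [h2]

/-- **truncation**: on `n ≤ N ≤ q ^ K1` only `K1 + 1 + D` positions are needed -/
theorem trunc_isP {q : ℕ} (hq : 2 ≤ q) (D d K1 N : ℕ) (hN : N ≤ q ^ K1) (L s : ℕ) (f : ℕ → G)
    (hf : IsP q D d L f) :
    ∃ (f' : ℕ → G) (s' : ℕ), s' < q ^ K1 ∧ IsP q D d (K1 + 1 + D) f' ∧
      ∀ n ≤ N, f (n + s) = f' (n + s') := by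
  obtain ⟨F, hF⟩ := (hf.mono_L (Nat.le_succ L)).to_phd hq (Nat.succ_pos L)
  obtain ⟨F', s', hs', h1⟩ := trunc_phd hq D d K1 N hN (L + 1) s F
  refine ⟨phd q D d (K1 + 1) F', s', hs', isP_phd hq D d (K1 + 1) F', fun n hn => ?_⟩
  rw [hF]
  exact h1 n hn

/-- the leading part and the part of lower degree -/
theorem IsP.split {q D d L : ℕ} (hd : 1 ≤ d) {f : ℕ → G} (hf : IsP q D d L f) :
    ∃ (t : Finset (ℕ × ℕ) → G) (g : ℕ → G), (∀ S, S.card ≠ d → t S = 0) ∧ IsP q D (d - 1) L g ∧
      f = fun n => FP q D L t n + g n := by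
  obtain ⟨t, ht, rfl⟩ := hf
  refine ⟨fun S => if S.card = d then t S else 0,
    FP q D L (fun S => if S.card = d then 0 else t S), fun S hS => if_neg hS,
    ⟨fun S => if S.card = d then 0 else t S, fun S hS => ?_, rfl⟩, ?_⟩
  · beta_reduce
    by_cases h : S.card = d
    · rw [if_pos h]
    · rw [if_neg h]
      exact ht S (by omega)
  · funext n
    unfold FP
    rw [← Finset.sum_add_distrib]
    refine Finset.sum_congr rfl fun S _ => ?_
    by_cases h : S.card = d
    · rw [if_pos h, if_pos h, add_zero]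
    · rw [if_neg h, if_neg h, zero_add]

end

end Pool.Agent.Lib.MP_3e612f_nt.DI.U
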