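import Pool.Agent.Lib.MP_3e612f_nt.DI.U.Ent
import Pool.Agent.Lib.MP_3e612f_nt.DI.U.Words
import Pool.Agent.Lib.MP_3e612f_nt.PS.SubC

/-!
Moebius disjointness of the universal subshift of phases with interactions of `d` windows, from the
theorem for one character (as `PI/UXB.lean`), and the form used in the hand-in.
-/

set_option autoImplicit false

namespace Pool.Agent.Lib.MP_3e612f_nt.DI

open Finset
open Pool.Agent.Lib.MP_3e612f_nt.PI (wd ee mc)

private theorem UXDB_unif {A : Type} [AddCommGroup A] [Finite A] [TopologicalSpace A]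
    [DiscreteTopology A] {X : Set (ℕ → A)} (hX : IsClosed X) {f : (ℕ → A) → ℂ}
    (hf : ContinuousOn f X) {ε : ℝ} (hε : 0 < ε) :
    ∃ m : ℕ, ∀ x ∈ X, ∀ y ∈ X, (∀ i < m, x i = y i) → ‖f x - f y‖ ≤ ε := by
  letI : Group A := (inferInstance : Group (Multiplicative A))
  exact PS.unif_coord hX hf hε

private theorem UXDB_bdd {A : Type} [AddCommGroup A] [Finite A] [TopologicalSpace A]
    [DiscreteTopology A] {X : Set (ℕ → A)} (hX : IsClosed X) {f : (ℕ → A) → ℂ}
    (hf : ContinuousOn f X) : ∃ C : ℝ, 0 < C ∧ ∀ x ∈ X, ‖f x‖ ≤ C := by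
  letI : Group A := (inferInstance : Group (Multiplicative A))
  exact PS.bdd_on hX hf

private theorem UXDB_mc (n : ℕ) : ‖mc n‖ ≤ 1 := by
  unfold mc
  rw [Complex.norm_intCast]
  exact_mod_cast ArithmeticFunction.abs_moebius_le_one

private theorem UXDB_sum (N : ℕ) (φ ψ : ℕ → ℂ) {ε : ℝ}
    (hg : ∀ n ∈ Icc 1 N, ‖φ n - ψ n‖ ≤ ε) :
    ‖∑ n ∈ Icc 1 N, mc n * φ n‖ ≤ ‖∑ n ∈ Icc 1 N, mc n * ψ n‖ + ε * N := by
  have e : ∑ n ∈ Icc 1 N, mc n * φ n =
      (∑ n ∈ Icc 1 N, mc n * ψ n) + ∑ n ∈ Icc 1 N, mc n * (φ n - ψ n) := by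
    rw [← Finset.sum_add_distrib]
    exact Finset.sum_congr rfl fun n _ => by ring
  have h1 : ‖∑ n ∈ Icc 1 N, mc n * (φ n - ψ n)‖ ≤ ∑ n ∈ Icc 1 N, ε := by
    refine (norm_sum_le _ _).trans (Finset.sum_le_sum fun n hn => ?_)
    rw [norm_mul]
    exact (mul_le_of_le_one_left (norm_nonneg _) (UXDB_mc n)).trans (hg n hn)
  rw [Finset.sum_const, Nat.card_Icc, nsmul_eq_mul, Nat.add_sub_cancel] at h1
  rw [e]
  refine (norm_add_le _ _).trans ?_
  linarith

theorem UXD_main (q D d κ : ℕ) (hq : 2 ≤ q) (hd : 1 ≤ d) (hmain : DegMain q D d) (A : Type) [AddCommGroup A] [Finite A]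
    [TopologicalSpace A] [DiscreteTopology A] (hA : ∀ a : A, (q ^ κ) • a = 0)
    (f : (ℕ → A) → ℂ) (hf : ContinuousOn f (UXD q D d A)) {ε : ℝ} (hε : 0 < ε) :
    ∃ N₀ : ℕ, ∀ N ≥ N₀, ∀ x ∈ UXD q D d A,
      ‖∑ n ∈ Icc 1 N, mc n * f (fun i => x (i + n))‖ ≤ ε * N := by
  classical
  obtain ⟨C, hC, hfC⟩ := UXDB_bdd (UXD_closed (A := A) q D d) hf
  have hε' : 0 < ε / (2 * C) := by positivity
  obtain ⟨k, hk⟩ := UXDB_unif (UXD_closed (A := A) q D d) hf (mul_pos hC hε')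
  obtain ⟨N0, hN0⟩ := words_maind q D d κ k hq hd hmain A hA hε'
  refine ⟨N0, fun N hN x hx => ?_⟩
  obtain ⟨F, L, s, hxs⟩ := hx (N + k + 1)
  have hmem : ∀ n : ℕ, (fun i => x (i + n)) ∈ UXD q D d A := fun n => UXD_shift hx n
  set φ : ℕ → ℂ := fun n => f (fun i => x (i + n)) / C with hφdef
  have hφ1 : ∀ n, ‖φ n‖ ≤ 1 := by
    intro n
    rw [hφdef]
    show ‖f (fun i => x (i + n)) / C‖ ≤ 1
    rw [norm_div, Complex.norm_real, Real.norm_eq_abs, abs_of_pos hC, div_le_one hC]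
    exact hfC _ (hmem n)
  set w : (Fin k → A) → ℂ := fun y =>
    if h : ∃ n, (1 ≤ n ∧ n ≤ N) ∧ (fun j : Fin k => phd q D d L F (n + s + j)) = y
      then φ h.choose else 0 with hw
  have hw1 : ∀ y, ‖w y‖ ≤ 1 := by
    intro y
    rw [hw]
    dsimp only
    split_ifs with hx
    · exact hφ1 _
    · rw [norm_zero]
      exact zero_le_one
  have hgood : ∀ n ∈ Icc 1 N, ‖φ n - w (fun j => phd q D d L F (n + s + j))‖ ≤ ε / (2 * C) := by
    intro n hn
    rw [Finset.mem_Icc] at hn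
    have hex : ∃ n', (1 ≤ n' ∧ n' ≤ N) ∧ (fun j : Fin k => phd q D d L F (n' + s + j)) =
        (fun j : Fin k => phd q D d L F (n + s + j)) := ⟨n, hn, rfl⟩
    have e : w (fun j => phd q D d L F (n + s + j)) = φ hex.choose := by
      rw [hw]
      exact dif_pos hex
    rw [e]
    obtain ⟨h1, h2⟩ := hex.choose_spec
    rw [hφdef]
    show ‖f (fun i => x (i + n)) / C - f (fun i => x (i + hex.choose)) / C‖ ≤ ε / (2 * C)
    rw [← sub_div, norm_div, Complex.norm_real, Real.norm_eq_abs, abs_of_pos hC,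
      div_le_iff₀ hC, mul_comm]
    refine hk _ (hmem n) _ (hmem _) fun i hi => ?_
    rw [hxs (i + n) (by omega), hxs (i + hex.choose) (by omega)]
    have h3 := congrFun h2 ⟨i, hi⟩
    dsimp only at h3
    rw [show i + n + s = n + s + i by omega, show i + hex.choose + s = hex.choose + s + i by omega]
    exact h3.symm
  have h1 := UXDB_sum N φ (fun n => w (fun j => phd q D d L F (n + s + j))) hgood
  have h2 := hN0 N hN L s F w hw1
  have e : ∑ n ∈ Icc 1 N, mc n * f (fun i => x (i + n)) = C * ∑ n ∈ Icc 1 N, mc n * φ n := by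
    rw [Finset.mul_sum]
    refine Finset.sum_congr rfl fun n _ => ?_
    have hC' : (C : ℂ) ≠ 0 := by exact_mod_cast hC.ne'
    rw [hφdef]
    field_simp
  rw [e, norm_mul, Complex.norm_real, Real.norm_eq_abs, abs_of_pos hC]
  have h3 : ‖∑ n ∈ Icc 1 N, mc n * φ n‖ ≤ 2 * (ε / (2 * C)) * N := by linarith
  calc C * ‖∑ n ∈ Icc 1 N, mc n * φ n‖ ≤ C * (2 * (ε / (2 * C)) * N) :=
        mul_le_mul_of_nonneg_left h3 hC.le
    _ = ε * N := by field_simp

/-- the phase as in the statement of the hand-in -/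
theorem phd_eq_sum {A : Type} [AddCommGroup A] (q D d L : ℕ)
    (F : (Fin d → ℕ) → (Fin d → ℕ) → A) (n : ℕ) :
    phd q D d L F n = ∑ j : Fin d → Fin L, F (fun a => j a)
      (fun a => n / q ^ (j a : ℕ) % q ^ (D + 1)) := by
  unfold phd
  symm
  refine Finset.sum_bij (fun (j : Fin d → Fin L) _ => fun a => (j a : ℕ)) ?_ ?_ ?_ ?_
  · intro j _
    rw [Fintype.mem_piFinset]
    intro a
    exact mem_range.2 (j a).2
  · intro j _ j' _ h
    funext a
    exact Fin.ext (congrFun h a)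
  · intro j hj
    rw [Fintype.mem_piFinset] at hj
    exact ⟨fun a => ⟨j a, mem_range.1 (hj a)⟩, Finset.mem_univ _, rfl⟩
  · intro j _
    rfl

/-- the subshift as in the statement of the hand-in -/
theorem UXD_eq (q D d : ℕ) (A : Type) [AddCommGroup A] :
    UXD q D d A = {x | ∀ l : ℕ, ∃ (L s : ℕ) (F : (Fin d → Fin L) → (Fin d → ℕ) → A),
      ∀ i < l, x i = ∑ j : Fin d → Fin L, F j
        (fun a => (i + s) / q ^ (j a : ℕ) % q ^ (D + 1))} := by
  ext x
  constructor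
  · intro hx l
    obtain ⟨F, L, s, h⟩ := hx l
    exact ⟨L, s, fun j => F (fun a => j a), fun i hi => by rw [h i hi, phd_eq_sum]⟩
  · intro hx l
    obtain ⟨L, s, F, h⟩ := hx l
    refine ⟨fun j x => if hj : ∀ a, j a < L then F (fun a => ⟨j a, hj a⟩) x else 0, L, s,
      fun i hi => ?_⟩
    rw [h i hi, phd_eq_sum]
    refine Finset.sum_congr rfl fun j _ => ?_
    rw [dif_pos fun a => (j a).2]

end Pool.Agent.Lib.MP_3e612f_nt.DI
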