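import Pool.Agent.Lib.MP_3e612f_nt.PI.WordsA
import Pool.Agent.Lib.MP_3e612f_nt.PI.Tr

/-!
Phases with interactions of `d` windows: definition, closure properties, truncation.

`phd_reindex`: if every window of `m` is a function of a window of `m'`, then a phase at `m` is a phase
at `m'`. This gives `shift_lowd` (from `WordsA_wd`) and `trunc_phd` (from `Tr_wd`).
-/

set_option autoImplicit false

namespace Pool.Agent.Lib.MP_3e612f_nt.DI

open Finset
open Pool.Agent.Lib.MP_3e612f_nt.PI (wd ee mc WordsA_wd Tr_wd WordsA_dig)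

section
variable {G : Type} [AddCommGroup G]

/-- phases with interactions of `d` windows of `D + 1` digits -/
def phd (q D d L : ℕ) (F : (Fin d → ℕ) → (Fin d → ℕ) → G) (n : ℕ) : G :=
  ∑ j ∈ Fintype.piFinset (fun _ : Fin d => range L), F j (fun a => wd q D (j a) n)

/-- being a phase with interactions of `d` windows of `D + 1` digits -/
def IsPhd (q D d : ℕ) (f : ℕ → G) : Prop :=
  ∃ (L : ℕ) (F : (Fin d → ℕ) → (Fin d → ℕ) → G), f = phd q D d L F

/-- change of the windows -/
theorem phd_reindex {q D d L L' m m' : ℕ} (π : ℕ → ℕ) (hπ : ∀ i < L, π i < L') (w : ℕ → ℕ → ℕ)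
    (hw : ∀ i, wd q D i m = w i (wd q D (π i) m')) (F : (Fin d → ℕ) → (Fin d → ℕ) → G) :
    phd q D d L F m = phd q D d L' (fun j' x =>
      ∑ j ∈ (Fintype.piFinset (fun _ : Fin d => range L)).filter (fun j => (fun a => π (j a)) = j'),
        F j (fun a => w (j a) (x a))) m' := by
  unfold phd
  rw [← Finset.sum_fiberwise_of_maps_to (s := Fintype.piFinset (fun _ : Fin d => range L))
    (t := Fintype.piFinset (fun _ : Fin d => range L')) (g := fun j a => π (j a))]
  · refine Finset.sum_congr rfl fun j' _ => Finset.sum_congr rfl fun j hj => ?_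
    rw [mem_filter] at hj
    congr 1
    funext a
    rw [hw (j a), ← hj.2]
  · intro j hj
    rw [Fintype.mem_piFinset] at hj ⊢
    intro a
    rw [mem_range]
    exact hπ _ (mem_range.1 (hj a))

theorem phd_ext {q D d L M : ℕ} (hLM : L ≤ M) (F : (Fin d → ℕ) → (Fin d → ℕ) → G) (n : ℕ) :
    phd q D d M (fun j x => if ∀ a, j a < L then F j x else 0) n = phd q D d L F n := by
  unfold phd
  have hsub : Fintype.piFinset (fun _ : Fin d => range L) ⊆
      Fintype.piFinset (fun _ : Fin d => range M) :=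
    Fintype.piFinset_subset _ _ fun _ => range_subset_range.2 hLM
  symm
  rw [← Finset.sum_subset hsub]
  · refine Finset.sum_congr rfl fun j hj => ?_
    rw [Fintype.mem_piFinset] at hj
    show _ = if ∀ a, j a < L then F j (fun a => wd q D (j a) n) else 0
    rw [if_pos fun a => mem_range.1 (hj a)]
  · intro j _ hj
    show (if ∀ a, j a < L then F j (fun a => wd q D (j a) n) else 0) = 0
    rw [if_neg]
    intro h
    exact hj (Fintype.mem_piFinset.2 fun a => mem_range.2 (h a))

theorem phd_add (q D d L : ℕ) (F F' : (Fin d → ℕ) → (Fin d → ℕ) → G) (n : ℕ) :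
    phd q D d L F n + phd q D d L F' n = phd q D d L (fun j x => F j x + F' j x) n := by
  unfold phd
  rw [Finset.sum_add_distrib]

theorem IsPhd.add {q D d : ℕ} {f h : ℕ → G} (hf : IsPhd q D d f) (hh : IsPhd q D d h) :
    IsPhd q D d (fun n => f n + h n) := by
  obtain ⟨L, F, rfl⟩ := hf
  obtain ⟨L', F', rfl⟩ := hh
  refine ⟨max L L', fun j x => (if ∀ a, j a < L then F j x else 0) +
    (if ∀ a, j a < L' then F' j x else 0), ?_⟩
  funext n
  rw [← phd_ext (le_max_left L L') F n, ← phd_ext (le_max_right L L') F' n, phd_add]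

theorem IsPhd.zero (q D d : ℕ) : IsPhd q D d (fun _ => (0 : G)) := by
  refine ⟨0, fun _ _ => 0, ?_⟩
  funext n
  simp [phd]

theorem IsPhd.sum {q D d : ℕ} {ι : Type} (S : Finset ι) {f : ι → ℕ → G}
    (hf : ∀ i ∈ S, IsPhd q D d (f i)) : IsPhd q D d (fun n => ∑ i ∈ S, f i n) := by
  classical
  induction S using Finset.induction_on with
  | empty =>
    simp only [Finset.sum_empty]
    exact IsPhd.zero q D d
  | insert a S ha ih =>
    have h1 := IsPhd.add (hf a (mem_insert_self a S))
      (ih fun i hi => hf i (mem_insert_of_mem hi))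
    have h2 : (fun n => ∑ i ∈ insert a S, f i n) = fun n => f a n + ∑ i ∈ S, f i n := by
      funext n
      rw [Finset.sum_insert ha]
    rw [h2]
    exact h1

theorem phd_map {q D d L : ℕ} {G' : Type} [AddCommGroup G'] (φ : G →+ G')
    (F : (Fin d → ℕ) → (Fin d → ℕ) → G) (n : ℕ) :
    phd q D d L (fun j x => φ (F j x)) n = φ (phd q D d L F n) := by
  unfold phd
  rw [map_sum]

theorem IsPhd.map {q D d : ℕ} {G' : Type} [AddCommGroup G'] (φ : G →+ G') {f : ℕ → G}
    (hf : IsPhd q D d f) : IsPhd q D d (fun n => φ (f n)) := by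
  obtain ⟨L, F, rfl⟩ := hf
  exact ⟨L, fun j x => φ (F j x), funext fun n => (phd_map φ F n).symm⟩

/-- for `n ≡ v` modulo `q ^ K` the shift by `j` with `v + j < q ^ K` is a phase again -/
theorem shift_lowd {q : ℕ} (hq : 2 ≤ q) (D d L K v j : ℕ) (hvj : v + j < q ^ K)
    (F : (Fin d → ℕ) → (Fin d → ℕ) → G) :
    ∃ f : ℕ → G, IsPhd q D d f ∧ ∀ n, n % q ^ K = v → phd q D d L F (n + j) = f n := by
  obtain ⟨w, hw⟩ := WordsA_wd hq D K v j hvj
  refine ⟨_, ⟨max L (K + 1), fun j' x => ∑ i ∈ (Fintype.piFinset (fun _ : Fin d => range L)).filter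
    (fun i => (fun a => max (i a) K) = j'), F i (fun a => w (i a) (x a)), rfl⟩, fun n hn => ?_⟩
  exact phd_reindex (fun i => max i K) (fun i hi => by
    show max i K < max L (K + 1)
    omega) w (hw n hn) F

theorem trunc_phd {q : ℕ} (hq : 2 ≤ q) (D d K1 N : ℕ) (hN : N ≤ q ^ K1) (L s : ℕ)
    (F : (Fin d → ℕ) → (Fin d → ℕ) → G) :
    ∃ (F' : (Fin d → ℕ) → (Fin d → ℕ) → G) (s' : ℕ), s' < q ^ K1 ∧ ∀ n ≤ N,
      phd q D d L F (n + s) = phd q D d (K1 + 1) F' (n + s') := by
  obtain ⟨w, hw⟩ := Tr_wd hq D K1 N hN s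
  refine ⟨fun j' x => ∑ j ∈ (Fintype.piFinset (fun _ : Fin d => range L)).filter
    (fun j => (fun a => min (j a) K1) = j'), F j (fun a => w (j a) (x a)), s % q ^ K1,
    Nat.mod_lt _ (Nat.pow_pos (by omega)), fun n hn => ?_⟩
  exact phd_reindex (fun i => min i K1) (fun i _ => by
    show min i K1 < K1 + 1
    omega) w (hw n hn) F

/-- functions of one window -/
theorem IsPhd.single {q D d : ℕ} (hd : 1 ≤ d) (i : ℕ) (c : ℕ → G) :
    IsPhd q D d (fun n => c (wd q D i n)) := by
  refine ⟨i + 1, fun j x => if ∀ a, j a = i then c (x ⟨0, hd⟩) else 0, ?_⟩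
  funext n
  unfold phd
  rw [Finset.sum_eq_single (fun _ : Fin d => i)]
  · show _ = if ∀ _ : Fin d, i = i then c (wd q D i n) else 0
    rw [if_pos fun _ => rfl]
  · intro j _ hj
    show (if ∀ a : Fin d, j a = i then c (wd q D (j ⟨0, hd⟩) n) else 0) = 0
    rw [if_neg]
    intro h
    exact hj (funext h)
  · intro h
    exfalso
    apply h
    rw [Fintype.mem_piFinset]
    intro a
    rw [mem_range]
    omega

theorem low_digitsd {q : ℕ} (D d K : ℕ) (hd : 1 ≤ d) (M : ℕ) (a : ZMod M) :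
    IsPhd q D d (fun n => a * ((n % q ^ K : ℕ) : ZMod M)) := by
  have h1 : (fun n : ℕ => a * ((n % q ^ K : ℕ) : ZMod M)) =
      fun n => ∑ i ∈ range K, a * (((wd q D i n % q) * q ^ i : ℕ) : ZMod M) := by
    funext n
    rw [WordsA_dig, Nat.cast_sum, Finset.mul_sum]
    refine Finset.sum_congr rfl fun i _ => ?_
    have : wd q D i n % q = n / q ^ i % q := by
      unfold wd
      exact Nat.mod_mod_of_dvd _ (dvd_pow_self q (by omega))
    rw [this]
  rw [h1]
  exact IsPhd.sum _ fun i _ => IsPhd.single hd i fun w => a * (((w % q) * q ^ i : ℕ) : ZMod M)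

end

end Pool.Agent.Lib.MP_3e612f_nt.DI
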